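import Mathlib

/-!
# Scheduling with unidentical jobs needs large portfolios

For every `α` and every number `t` of units there is an instance of scheduling on unrelated
machines with at most `(2 A t ^ 2 + 1) ^ (5 t)` machines (`A ≥ α` an integer) in which every
`α`-approximate portfolio for the ordered norms has at least `2 ^ t` elements.

Unit `k` has `K ^ (4 k + 4)` jobs. They can be processed on `K ^ (4 k + 2)` machines of the first kind
(`K ^ 2` jobs per machine, giving load `K ^ (- 2 k)`) or on private machines of the second kind (load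
`K ^ (- 2 k - 1)` each). For every pattern in `{true, false} ^ t` there is an ordered norm for which
the choice prescribed by the pattern is good in all units and every other choice is bad.
-/

open Finset

namespace Pool.Agent.Results.MP_61ce55_lc.LargePortfolios

/-- The vector `x` rearranged in nonincreasing order. -/
noncomputable def srt {d : ℕ} (x : Fin d → ℝ) : Fin d → ℝ :=
  fun i => x (Tuple.sort (fun j => - x j) i)

/-- The ordered norm with weights `w`. -/
noncomputable def ordNorm {d : ℕ} (w x : Fin d → ℝ) : ℝ := ∑ i, w i * srt x i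

/-- The weight vectors of ordered norms: nonzero, nonincreasing, nonnegative. -/
def IsWeight {d : ℕ} (w : Fin d → ℝ) : Prop := w ≠ 0 ∧ Antitone w ∧ ∀ i, 0 ≤ w i

/-- The load vector of the schedule `φ` (job `j` is assigned to machine `φ j`). -/
def load {d n : ℕ} (p : Fin d → Fin n → ℝ) (φ : Fin n → Fin d) : Fin d → ℝ :=
  fun i => ∑ j, if φ j = i then p i j else 0

/-- The set of the load vectors of all schedules. -/
def loads {d n : ℕ} (p : Fin d → Fin n → ℝ) : Set (Fin d → ℝ) := Set.range (load p)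

/-- `X` is an `α`-approximate portfolio for the ordered norms in `D`: a finite subset of `D` such that
for every ordered norm some member of `X` is within the factor `α` of every member of `D`. -/
def IsPortfolio {d : ℕ} (α : ℝ) (D : Set (Fin d → ℝ)) (X : Finset (Fin d → ℝ)) : Prop :=
  (∀ x ∈ X, x ∈ D) ∧
    ∀ w : Fin d → ℝ, IsWeight w → ∃ x ∈ X, ∀ y ∈ D, ordNorm w x ≤ α * ordNorm w y

section general

variable {d : ℕ}

lemma srt_anti (x : Fin d → ℝ) : Antitone (srt x) := by
  intro i j hij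
  have := Tuple.monotone_sort (fun j => - x j) hij
  simp only [Function.comp] at this
  simp only [srt]
  linarith

/-- the sum over a set is at most the sum of the largest coordinates -/
lemma top_sum {x : Fin d → ℝ} (hx : ∀ i, 0 ≤ x i) (S : Finset (Fin d)) :
    ∑ i ∈ S, x i ≤ ∑ i : Fin d, if (i : ℕ) < S.card then srt x i else 0 := by
  classical
  rcases Nat.eq_zero_or_pos S.card with h0 | h0
  · rw [Finset.card_eq_zero] at h0
    subst h0; simp
  have hm : S.card ≤ d := by simpa using Finset.card_le_univ S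
  set t : ℝ := srt x ⟨S.card - 1, by omega⟩ with ht
  have ht0 : 0 ≤ t := hx _
  have h1 : ∑ i ∈ S, x i ≤ ∑ i ∈ S, (max (x i - t) 0 + t) := by
    apply Finset.sum_le_sum
    intro i _
    have := le_max_left (x i - t) 0
    linarith
  have h2 : ∑ i ∈ S, (max (x i - t) 0 + t) = ∑ i ∈ S, max (x i - t) 0 + S.card * t := by
    rw [Finset.sum_add_distrib, Finset.sum_const, nsmul_eq_mul]
  have h3 : ∑ i ∈ S, max (x i - t) 0 ≤ ∑ i, max (x i - t) 0 :=
    Finset.sum_le_sum_of_subset_of_nonneg (Finset.subset_univ _) (fun i _ _ => le_max_right _ _)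
  have h4 : ∑ i, max (x i - t) 0 = ∑ i, max (srt x i - t) 0 := by
    unfold srt
    exact (Equiv.sum_comp (Tuple.sort (fun j => - x j)) (fun i => max (x i - t) 0)).symm
  have h5 : ∑ i, max (srt x i - t) 0 ≤
      ∑ i : Fin d, if (i : ℕ) < S.card then (srt x i - t) else 0 := by
    apply Finset.sum_le_sum
    intro i _
    split_ifs with hi
    · have : t ≤ srt x i := by
        apply srt_anti; rw [Fin.le_def]; simp only; omega
      rw [max_eq_left (by linarith)]
    · have : srt x i ≤ t := by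
        apply srt_anti; rw [Fin.le_def]; simp only; omega
      rw [max_eq_right (by linarith)]
  have h6 : (∑ i : Fin d, if (i : ℕ) < S.card then (srt x i - t) else 0) =
      (∑ i : Fin d, if (i : ℕ) < S.card then srt x i else 0) - S.card * t := by
    have h7 : (∑ i : Fin d, if (i : ℕ) < S.card then t else 0) = S.card * t := by
      rw [← Finset.sum_filter, Finset.sum_const, nsmul_eq_mul]
      congr 2
      rw [Fin.card_filter_val_lt]
      omega
    rw [← h7, ← Finset.sum_sub_distrib]
    apply Finset.sum_congr rfl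
    intro i _
    split_ifs <;> ring
  linarith

lemma ordNorm_ge {w x : Fin d → ℝ} (hw : ∀ i, 0 ≤ w i) (hx : ∀ i, 0 ≤ x i) (S : Finset (Fin d))
    {c : ℝ} (hc : 0 ≤ c) {m : ℕ} (hS : S.card ≤ m) (h : ∀ i : Fin d, (i : ℕ) < m → c ≤ w i) :
    c * ∑ i ∈ S, x i ≤ ordNorm w x := by
  have h1 := mul_le_mul_of_nonneg_left (top_sum hx S) hc
  refine h1.trans ?_
  rw [Finset.mul_sum]
  unfold ordNorm
  apply Finset.sum_le_sum
  intro i _
  have hs : 0 ≤ srt x i := hx _
  split_ifs with hi
  · exact mul_le_mul_of_nonneg_right (h i (by omega)) hs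
  · rw [mul_zero]; exact mul_nonneg (hw i) hs

/-- upper bound for the ordered norms we use -/
lemma ordNorm_le {t : ℕ} (ρ v : Fin t → ℝ) (m : Fin t → ℕ) (S : Fin t → Finset (Fin d))
    (hρ : ∀ b, 0 ≤ ρ b) (hv : ∀ k, 0 ≤ v k) {x : Fin d → ℝ}
    (hxv : ∀ i, x i ≤ ∑ k, if i ∈ S k then v k else 0)
    (h : ∀ b k, ρ b * v k * m b ≤ 1 ∨ ρ b * v k * (S k).card ≤ 1) :
    ordNorm (fun i => ∑ b, if (i : ℕ) < m b then ρ b else 0) x ≤ t * t := by
  classical
  unfold ordNorm
  set σ := Tuple.sort (fun j => - x j) with hσ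
  have h1 : ∀ i : Fin d, (∑ b, if (i : ℕ) < m b then ρ b else 0) * srt x i ≤
      ∑ b, ∑ k, if ((i : ℕ) < m b ∧ σ i ∈ S k) then ρ b * v k else 0 := by
    intro i
    have h2 : 0 ≤ ∑ b, if (i : ℕ) < m b then ρ b else 0 := by
      apply Finset.sum_nonneg; intro b _; split_ifs <;> simp [hρ]
    calc (∑ b, if (i : ℕ) < m b then ρ b else 0) * srt x i
        ≤ (∑ b, if (i : ℕ) < m b then ρ b else 0) * ∑ k, if σ i ∈ S k then v k else 0 :=
          mul_le_mul_of_nonneg_left (hxv _) h2
      _ = ∑ b, ∑ k, if ((i : ℕ) < m b ∧ σ i ∈ S k) then ρ b * v k else 0 := by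
          rw [Finset.sum_mul_sum]
          apply Finset.sum_congr rfl; intro b _
          apply Finset.sum_congr rfl; intro k _
          by_cases g1 : (i : ℕ) < m b <;> by_cases g2 : σ i ∈ S k <;> simp [g1, g2]
  have h2 : ∀ b k, (∑ i : Fin d, if ((i : ℕ) < m b ∧ σ i ∈ S k) then ρ b * v k else 0) ≤ 1 := by
    intro b k
    rw [← Finset.sum_filter, Finset.sum_const, nsmul_eq_mul]
    have hnn : 0 ≤ ρ b * v k := mul_nonneg (hρ b) (hv k)
    have c1 : (Finset.univ.filter (fun i : Fin d => (i : ℕ) < m b ∧ σ i ∈ S k)).card ≤ m b := by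
      have : (Finset.univ.filter (fun i : Fin d => (i : ℕ) < m b ∧ σ i ∈ S k)).card ≤
          (Finset.range (m b)).card := by
        apply Finset.card_le_card_of_injOn (fun i : Fin d => (i : ℕ))
        · intro i hi
          simp only [Finset.coe_filter, Finset.mem_univ, true_and, Set.mem_ofPred_eq] at hi
          simp [hi.1]
        · intro a _ b _ hab
          exact Fin.ext hab
      simpa using this
    have c2 : (Finset.univ.filter (fun i : Fin d => (i : ℕ) < m b ∧ σ i ∈ S k)).card ≤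
        (S k).card := by
      apply Finset.card_le_card_of_injOn (fun i => σ i)
      · intro i hi
        simp only [Finset.coe_filter, Finset.mem_univ, true_and, Set.mem_ofPred_eq] at hi
        exact hi.2
      · intro a _ b _ hab
        exact σ.injective hab
    rcases h b k with hh | hh
    · have : ((Finset.univ.filter (fun i : Fin d => (i : ℕ) < m b ∧ σ i ∈ S k)).card : ℝ) ≤ m b := by
        exact_mod_cast c1
      nlinarith
    · have : ((Finset.univ.filter (fun i : Fin d => (i : ℕ) < m b ∧ σ i ∈ S k)).card : ℝ) ≤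
          (S k).card := by
        exact_mod_cast c2
      nlinarith
  calc ∑ i : Fin d, (∑ b, if (i : ℕ) < m b then ρ b else 0) * srt x i
      ≤ ∑ i : Fin d, ∑ b, ∑ k, if ((i : ℕ) < m b ∧ σ i ∈ S k) then ρ b * v k else 0 :=
        Finset.sum_le_sum fun i _ => h1 i
    _ = ∑ b, ∑ k, ∑ i : Fin d, if ((i : ℕ) < m b ∧ σ i ∈ S k) then ρ b * v k else 0 := by
        rw [Finset.sum_comm]
        apply Finset.sum_congr rfl; intro b _
        rw [Finset.sum_comm]
    _ ≤ ∑ _b : Fin t, ∑ _k : Fin t, (1 : ℝ) :=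
        Finset.sum_le_sum fun b _ => Finset.sum_le_sum fun k _ => h2 b k
    _ = t * t := by simp

end general

section inst

variable (K t : ℕ)

/-- machines -/
abbrev Mach : Type := (k : Fin t) × (Fin (K ^ (4 * (k : ℕ) + 2)) ⊕
  (Fin (K ^ (4 * (k : ℕ) + 2)) × Fin (K ^ 2)))

/-- jobs -/
abbrev Job : Type := (k : Fin t) × (Fin (K ^ (4 * (k : ℕ) + 2)) × Fin (K ^ 2))

variable {K t}

/-- machine of the first kind of a job -/
def aM (j : Job K t) : Mach K t := ⟨j.1, Sum.inl j.2.1⟩

/-- machine of the second kind of a job -/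
def bM (j : Job K t) : Mach K t := ⟨j.1, Sum.inr j.2⟩

/-- processing times -/
noncomputable def p0 (m : Mach K t) (j : Job K t) : ℝ :=
  if m = aM j then ((K : ℝ) ^ (2 * (j.1 : ℕ) + 2))⁻¹
  else if m = bM j then ((K : ℝ) ^ (2 * (j.1 : ℕ) + 1))⁻¹ else (K : ℝ) ^ 3

lemma aM_ne_bM (j j' : Job K t) : aM j ≠ bM j' := by
  intro h
  unfold aM bM at h
  rw [Sigma.mk.injEq] at h
  obtain ⟨h1, h2⟩ := h
  obtain ⟨k, q⟩ := j
  obtain ⟨k', q'⟩ := j'
  simp only at h1
  subst h1
  simp at h2

lemma p0_nonneg (m : Mach K t) (j : Job K t) : 0 ≤ p0 m j := by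
  unfold p0
  split_ifs <;> positivity

lemma p0_a (j : Job K t) : p0 (aM j) j = ((K : ℝ) ^ (2 * (j.1 : ℕ) + 2))⁻¹ := by
  unfold p0; rw [if_pos rfl]

lemma p0_b (j : Job K t) : p0 (bM j) j = ((K : ℝ) ^ (2 * (j.1 : ℕ) + 1))⁻¹ := by
  unfold p0; rw [if_neg (aM_ne_bM j j).symm, if_pos rfl]

/-- machines of the first kind in unit `k` -/
def AS (k : Fin t) : Finset (Mach K t) :=
  (Finset.univ : Finset (Fin (K ^ (4 * (k : ℕ) + 2)))).image (fun a => (⟨k, Sum.inl a⟩ : Mach K t))

/-- machines of the second kind in unit `k` -/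
def BS (k : Fin t) : Finset (Mach K t) :=
  (Finset.univ : Finset (Fin (K ^ (4 * (k : ℕ) + 2)) × Fin (K ^ 2))).image
    (fun q => (⟨k, Sum.inr q⟩ : Mach K t))

lemma AS_card (k : Fin t) : (AS k : Finset (Mach K t)).card ≤ K ^ (4 * (k : ℕ) + 2) := by
  refine Finset.card_image_le.trans ?_
  simp

lemma BS_card (k : Fin t) : (BS k : Finset (Mach K t)).card ≤ K ^ (4 * (k : ℕ) + 4) := by
  refine Finset.card_image_le.trans ?_
  simp [← pow_add]

lemma aM_mem (k : Fin t) (q) : aM (⟨k, q⟩ : Job K t) ∈ AS k := by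
  simp [AS, aM]

lemma bM_mem (k : Fin t) (q) : bM (⟨k, q⟩ : Job K t) ∈ BS k := by
  simp only [BS, bM, Finset.mem_image, Finset.mem_univ, true_and]
  exact ⟨q, rfl⟩

/-- load vectors indexed by `Mach` -/
noncomputable def ld (φ : Job K t → Mach K t) (m : Mach K t) : ℝ :=
  ∑ j, if φ j = m then p0 m j else 0

lemma ld_nonneg (φ : Job K t → Mach K t) (m : Mach K t) : 0 ≤ ld φ m := by
  unfold ld
  apply Finset.sum_nonneg; intro j _; split_ifs
  · exact p0_nonneg _ _
  · exact le_rfl

lemma sum_ld (φ : Job K t → Mach K t) (S : Finset (Mach K t)) :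
    ∑ m ∈ S, ld φ m = ∑ j, if φ j ∈ S then p0 (φ j) j else 0 := by
  unfold ld
  rw [Finset.sum_comm]
  apply Finset.sum_congr rfl
  intro j _
  rw [Finset.sum_ite_eq]

lemma frac (hK : 0 < K) (φ : Job K t → Mach K t) (hφ : ∀ j, φ j = aM j ∨ φ j = bM j) (k : Fin t) :
    1 ≤ (∑ m ∈ AS k, ld φ m) / (K : ℝ) ^ (2 * (k : ℕ) + 2) +
      (∑ m ∈ BS k, ld φ m) / (K : ℝ) ^ (2 * (k : ℕ) + 3) := by
  have hK' : (0 : ℝ) < K := by exact_mod_cast hK
  rw [sum_ld, sum_ld, Finset.sum_div, Finset.sum_div, ← Finset.sum_add_distrib]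
  have h1 : ∀ j : Job K t, 0 ≤ (if φ j ∈ AS k then p0 (φ j) j else 0) /
      (K : ℝ) ^ (2 * (k : ℕ) + 2) + (if φ j ∈ BS k then p0 (φ j) j else 0) /
      (K : ℝ) ^ (2 * (k : ℕ) + 3) := by
    intro j
    have := p0_nonneg (φ j) j
    apply add_nonneg
    · apply div_nonneg _ (by positivity); split_ifs <;> simp [this]
    · apply div_nonneg _ (by positivity); split_ifs <;> simp [this]
  let U : Finset (Job K t) :=
    (Finset.univ : Finset (Fin (K ^ (4 * (k : ℕ) + 2)) × Fin (K ^ 2))).image
      (fun q => (⟨k, q⟩ : Job K t))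
  have hU : U.card = K ^ (4 * (k : ℕ) + 4) := by
    rw [Finset.card_image_of_injective]
    · simp [← pow_add]
    · intro a b hab
      simpa using hab
  have h2 : ∀ j ∈ U, ((K : ℝ) ^ (4 * (k : ℕ) + 4))⁻¹ ≤ (if φ j ∈ AS k then p0 (φ j) j else 0) /
      (K : ℝ) ^ (2 * (k : ℕ) + 2) + (if φ j ∈ BS k then p0 (φ j) j else 0) /
      (K : ℝ) ^ (2 * (k : ℕ) + 3) := by
    intro j hj
    obtain ⟨q, -, rfl⟩ := Finset.mem_image.1 hj
    rcases hφ ⟨k, q⟩ with h | h
    · rw [h, if_pos (aM_mem k q), p0_a]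
      have e : ((K : ℝ) ^ (2 * (k : ℕ) + 2))⁻¹ / (K : ℝ) ^ (2 * (k : ℕ) + 2) =
          ((K : ℝ) ^ (4 * (k : ℕ) + 4))⁻¹ := by
        rw [div_eq_mul_inv, ← mul_inv, ← pow_add]; congr 2; ring
      have e2 : 0 ≤ (if aM (⟨k, q⟩ : Job K t) ∈ BS k then ((K : ℝ) ^ (2 * (k : ℕ) + 2))⁻¹ else 0) /
          (K : ℝ) ^ (2 * (k : ℕ) + 3) := by
        apply div_nonneg _ (by positivity); split_ifs <;> positivity
      simp only at e2 ⊢
      linarith
    · rw [h, if_pos (bM_mem k q), p0_b]
      have e : ((K : ℝ) ^ (2 * (k : ℕ) + 1))⁻¹ / (K : ℝ) ^ (2 * (k : ℕ) + 3) =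
          ((K : ℝ) ^ (4 * (k : ℕ) + 4))⁻¹ := by
        rw [div_eq_mul_inv, ← mul_inv, ← pow_add]; congr 2; ring
      have e2 : 0 ≤ (if bM (⟨k, q⟩ : Job K t) ∈ AS k then ((K : ℝ) ^ (2 * (k : ℕ) + 1))⁻¹ else 0) /
          (K : ℝ) ^ (2 * (k : ℕ) + 2) := by
        apply div_nonneg _ (by positivity); split_ifs <;> positivity
      simp only at e2 ⊢
      linarith
  calc (1 : ℝ) = ∑ _j ∈ U, ((K : ℝ) ^ (4 * (k : ℕ) + 4))⁻¹ := by
        rw [Finset.sum_const, hU, nsmul_eq_mul]
        push_cast
        rw [mul_inv_cancel₀ (by positivity)]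
    _ ≤ _ := Finset.sum_le_sum h2
    _ ≤ _ := Finset.sum_le_sum_of_subset_of_nonneg (Finset.subset_univ _) (fun j _ _ => h1 j)

/-- the good schedule for the pattern `s` -/
def good (s : Fin t → Bool) (j : Job K t) : Mach K t := if s j.1 then bM j else aM j

/-- load of the good schedule -/
lemma ld_good (hK : 0 < K) (s : Fin t → Bool) (m : Mach K t) :
    ld (good s) m ≤ ∑ k, if m ∈ (if s k then BS k else AS k : Finset (Mach K t)) then
      (if s k then ((K : ℝ) ^ (2 * (k : ℕ) + 1))⁻¹ else ((K : ℝ) ^ (2 * (k : ℕ)))⁻¹) else 0 := by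
  classical
  have hK' : (0 : ℝ) < K := by exact_mod_cast hK
  obtain ⟨k, q⟩ := m
  have hterm : ∀ k' : Fin t, 0 ≤ (if (⟨k, q⟩ : Mach K t) ∈
      (if s k' then BS k' else AS k' : Finset (Mach K t)) then
      (if s k' then ((K : ℝ) ^ (2 * (k' : ℕ) + 1))⁻¹ else ((K : ℝ) ^ (2 * (k' : ℕ)))⁻¹) else 0) := by
    intro k'
    split_ifs <;> positivity
  have hle := Finset.single_le_sum (fun k' _ => hterm k') (Finset.mem_univ k)
  refine le_trans ?_ hle
  unfold ld
  rw [← Finset.sum_filter]
  cases hs : s k with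
  | true =>
    simp only [if_true]
    rcases q with a | q
    · -- no job goes to a machine of the first kind
      have : (Finset.univ.filter (fun j : Job K t => good s j = ⟨k, Sum.inl a⟩)) = ∅ := by
        rw [Finset.filter_eq_empty_iff]
        rintro ⟨k', q'⟩ _ h
        unfold good at h
        rcases Bool.eq_false_or_eq_true (s k') with hk | hk
        · simp only [hk, if_true, bM, Sigma.mk.injEq] at h
          obtain ⟨h1, h2⟩ := h
          subst h1
          simp at h2
        · simp only [hk, Bool.false_eq_true, if_false, aM, Sigma.mk.injEq] at h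
          rw [h.1] at hk
          rw [hs] at hk
          exact absurd hk (by simp)
      rw [this, Finset.sum_empty]
      split_ifs <;> positivity
    · have hsub : (Finset.univ.filter (fun j : Job K t => good s j = ⟨k, Sum.inr q⟩)) ⊆
          {(⟨k, q⟩ : Job K t)} := by
        intro j hj
        rw [Finset.mem_filter] at hj
        obtain ⟨k', q'⟩ := j
        have h := hj.2
        unfold good at h
        rw [Finset.mem_singleton]
        rcases Bool.eq_false_or_eq_true (s k') with hk | hk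
        · simp only [hk, if_true, bM, Sigma.mk.injEq] at h
          obtain ⟨h1, h2⟩ := h
          subst h1
          simpa using h2
        · simp only [hk, Bool.false_eq_true, if_false, aM, Sigma.mk.injEq] at h
          obtain ⟨h1, h2⟩ := h
          subst h1
          simp at h2
      refine (Finset.sum_le_sum_of_subset_of_nonneg hsub (fun j _ _ => p0_nonneg _ _)).trans ?_
      rw [Finset.sum_singleton, if_pos (show (⟨k, Sum.inr q⟩ : Mach K t) ∈ BS k from bM_mem k q)]
      exact (p0_b (⟨k, q⟩ : Job K t)).le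
  | false =>
    simp only [Bool.false_eq_true, if_false]
    rcases q with a | q
    · rw [if_pos (show (⟨k, Sum.inl a⟩ : Mach K t) ∈ AS k by simp [AS])]
      have hmem : ∀ j ∈ Finset.univ.filter (fun j : Job K t => good s j = ⟨k, Sum.inl a⟩),
          aM j = ⟨k, Sum.inl a⟩ := by
        intro j hj
        rw [Finset.mem_filter] at hj
        have h := hj.2
        unfold good at h
        obtain ⟨k', q'⟩ := j
        rcases Bool.eq_false_or_eq_true (s k') with hk | hk
        · simp only [hk, if_true, bM, Sigma.mk.injEq] at h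
          obtain ⟨h1, h2⟩ := h
          subst h1
          simp at h2
        · simpa only [hk, Bool.false_eq_true, if_false] using h
      have hcard : (Finset.univ.filter (fun j : Job K t => good s j = ⟨k, Sum.inl a⟩)).card ≤
          K ^ 2 := by
        have : (Finset.univ.filter (fun j : Job K t => good s j = ⟨k, Sum.inl a⟩)).card ≤
            (Finset.univ : Finset (Fin (K ^ 2))).card := by
          apply Finset.card_le_card_of_injOn (fun j => j.2.2)
          · intro j _; simp
          · intro j hj j' hj' h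
            have e1 := hmem j hj
            have e2 := hmem j' hj'
            obtain ⟨k1, a1, g1⟩ := j
            obtain ⟨k2, a2, g2⟩ := j'
            unfold aM at e1 e2
            simp only [Sigma.mk.injEq] at e1 e2
            obtain ⟨rfl, e1⟩ := e1
            obtain ⟨rfl, e2⟩ := e2
            simp only [heq_eq_eq, Sum.inl.injEq] at e1 e2
            simp only at h
            rw [e1, e2, h]
        simpa using this
      have hval : ∀ j ∈ Finset.univ.filter (fun j : Job K t => good s j = ⟨k, Sum.inl a⟩),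
          p0 (⟨k, Sum.inl a⟩ : Mach K t) j ≤ ((K : ℝ) ^ (2 * (k : ℕ) + 2))⁻¹ := by
        intro j hj
        have e1 := hmem j hj
        rw [← e1, p0_a]
        have : j.1 = k := congrArg Sigma.fst e1
        rw [this]
      refine (Finset.sum_le_sum hval).trans ?_
      rw [Finset.sum_const, nsmul_eq_mul]
      have hc : ((Finset.univ.filter (fun j : Job K t => good s j = ⟨k, Sum.inl a⟩)).card : ℝ) ≤
          (K : ℝ) ^ 2 := by exact_mod_cast hcard
      calc _ ≤ (K : ℝ) ^ 2 * ((K : ℝ) ^ (2 * (k : ℕ) + 2))⁻¹ :=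
            mul_le_mul_of_nonneg_right hc (by positivity)
        _ = ((K : ℝ) ^ (2 * (k : ℕ)))⁻¹ := by
            rw [pow_add]; field_simp
    · have : (Finset.univ.filter (fun j : Job K t => good s j = ⟨k, Sum.inr q⟩)) = ∅ := by
        rw [Finset.filter_eq_empty_iff]
        rintro ⟨k', q'⟩ _ h
        unfold good at h
        rcases Bool.eq_false_or_eq_true (s k') with hk | hk
        · simp only [hk, if_true, bM, Sigma.mk.injEq] at h
          rw [h.1] at hk
          rw [hs] at hk
          exact absurd hk (by simp)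
        · simp only [hk, Bool.false_eq_true, if_false, aM, Sigma.mk.injEq] at h
          obtain ⟨h1, h2⟩ := h
          subst h1
          simp at h2
      rw [this, Finset.sum_empty]
      split_ifs <;> positivity

end inst

section main

variable (K t : ℕ)

/-- the processing times of the instance, with machines and jobs numbered -/
noncomputable def P : Fin (Fintype.card (Mach K t)) → Fin (Fintype.card (Job K t)) → ℝ :=
  fun i j => p0 ((Fintype.equivFin (Mach K t)).symm i) ((Fintype.equivFin (Job K t)).symm j)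

variable {K t}

lemma load_eq (φ : Fin (Fintype.card (Job K t)) → Fin (Fintype.card (Mach K t)))
    (i : Fin (Fintype.card (Mach K t))) :
    load (P K t) φ i = ld (fun j => (Fintype.equivFin (Mach K t)).symm
      (φ (Fintype.equivFin (Job K t) j))) ((Fintype.equivFin (Mach K t)).symm i) := by
  unfold load ld P
  rw [← Equiv.sum_comp (Fintype.equivFin (Job K t))]
  apply Finset.sum_congr rfl
  intro j _
  simp

/-- number of positions of a bump -/
def mm (K : ℕ) {t : ℕ} (s : Fin t → Bool) (b : Fin t) : ℕ :=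
  if s b then K ^ (4 * (b : ℕ) + 2) else K ^ (4 * (b : ℕ) + 4)

/-- height of a bump -/
noncomputable def rr (K : ℕ) {t : ℕ} (s : Fin t → Bool) (b : Fin t) : ℝ :=
  if s b then ((K : ℝ) ^ (2 * (b : ℕ) + 1))⁻¹ else ((K : ℝ) ^ (2 * (b : ℕ) + 2))⁻¹

/-- values of the good load vector -/
noncomputable def vv (K : ℕ) {t : ℕ} (s : Fin t → Bool) (k : Fin t) : ℝ :=
  if s k then ((K : ℝ) ^ (2 * (k : ℕ) + 1))⁻¹ else ((K : ℝ) ^ (2 * (k : ℕ)))⁻¹

/-- the weights of the ordered norm of the pattern `s` -/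
noncomputable def wt (K : ℕ) {t : ℕ} (s : Fin t → Bool) (d : ℕ) (i : Fin d) : ℝ :=
  ∑ b, if (i : ℕ) < mm K s b then rr K s b else 0

lemma rr_pos (hK : 0 < K) (s : Fin t → Bool) (b : Fin t) : 0 < rr K s b := by
  have hK' : (0 : ℝ) < K := by exact_mod_cast hK
  unfold rr; split_ifs <;> positivity

lemma vv_pos (hK : 0 < K) (s : Fin t → Bool) (b : Fin t) : 0 < vv K s b := by
  have hK' : (0 : ℝ) < K := by exact_mod_cast hK
  unfold vv; split_ifs <;> positivity

lemma mm_pos (hK : 0 < K) (s : Fin t → Bool) (b : Fin t) : 0 < mm K s b := by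
  unfold mm; split_ifs <;> exact Nat.pow_pos hK

lemma wt_ge (hK : 0 < K) (s : Fin t → Bool) (b : Fin t) {d : ℕ} (i : Fin d)
    (hi : (i : ℕ) < mm K s b) : rr K s b ≤ wt K s d i := by
  unfold wt
  have h := Finset.single_le_sum (f := fun b => if (i : ℕ) < mm K s b then rr K s b else 0)
    (s := Finset.univ) (fun b _ => by
      split_ifs
      · exact (rr_pos hK s b).le
      · exact le_rfl) (Finset.mem_univ b)
  simp only [hi, if_true] at h
  exact h

lemma wt_weight (hK : 0 < K) (ht : 0 < t) (s : Fin t → Bool) {d : ℕ} (hd : 0 < d) :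
    IsWeight (wt K s d) := by
  refine ⟨fun h => ?_, ?_, ?_⟩
  · have h1 := wt_ge hK s ⟨0, ht⟩ (⟨0, hd⟩ : Fin d) (mm_pos hK s _)
    rw [h] at h1
    exact absurd (rr_pos hK s ⟨0, ht⟩) (not_lt.2 h1)
  · intro i j hij
    unfold wt
    apply Finset.sum_le_sum
    intro b _
    have : (i : ℕ) ≤ j := hij
    split_ifs with h1 h2
    · exact le_rfl
    · omega
    · exact (rr_pos hK s b).le
    · exact le_rfl
  · intro i
    unfold wt
    apply Finset.sum_nonneg
    intro b _
    split_ifs
    · exact (rr_pos hK s b).le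
    · exact le_rfl

lemma good_cost (hK : 0 < K) (s : Fin t → Bool) :
    ∃ φ, ordNorm (wt K s _) (load (P K t) φ) ≤ t * t := by
  classical
  have hK' : (0 : ℝ) < K := by exact_mod_cast hK
  have hK1 : (1 : ℝ) ≤ K := by exact_mod_cast hK
  let eM := Fintype.equivFin (Mach K t)
  let eJ := Fintype.equivFin (Job K t)
  refine ⟨fun j => eM (good s (eJ.symm j)), ?_⟩
  have hload : ∀ i, load (P K t) (fun j => eM (good s (eJ.symm j))) i = ld (good s) (eM.symm i) := by
    intro i
    rw [load_eq]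
    congr 1
    funext j
    simp [eM, eJ]
  let S : Fin t → Finset (Fin (Fintype.card (Mach K t))) := fun k =>
    (if s k then BS k else AS k : Finset (Mach K t)).map eM.toEmbedding
  have hS : ∀ i k, i ∈ S k ↔ eM.symm i ∈ (if s k then BS k else AS k : Finset (Mach K t)) := by
    intro i k
    simp only [S]
    rw [Finset.mem_map_equiv]
  have hScard : ∀ k, (S k).card = (if s k then BS k else AS k : Finset (Mach K t)).card := by
    intro k
    simp only [S]
    rw [Finset.card_map]
  apply ordNorm_le (rr K s) (vv K s) (mm K s) S (fun b => (rr_pos hK s b).le)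
    (fun k => (vv_pos hK s k).le)
  · intro i
    rw [hload]
    refine (ld_good hK s (eM.symm i)).trans (le_of_eq ?_)
    apply Finset.sum_congr rfl
    intro k _
    simp only [hS, vv]
  · intro b k
    rcases lt_trichotomy (k : ℕ) b with hkb | hkb | hkb
    · right
      rw [hScard]
      have h1 : rr K s b ≤ ((K : ℝ) ^ (2 * (k : ℕ) + 3))⁻¹ := by
        unfold rr
        split_ifs
        · apply inv_anti₀ (by positivity)
          exact pow_le_pow_right₀ hK1 (by omega)
        · apply inv_anti₀ (by positivity)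
          exact pow_le_pow_right₀ hK1 (by omega)
      have h2 : vv K s k * ((if s k then BS k else AS k : Finset (Mach K t)).card : ℝ) ≤
          (K : ℝ) ^ (2 * (k : ℕ) + 3) := by
        unfold vv
        split_ifs
        · have : ((BS k : Finset (Mach K t)).card : ℝ) ≤ (K : ℝ) ^ (4 * (k : ℕ) + 4) := by
            exact_mod_cast BS_card k
          calc _ ≤ ((K : ℝ) ^ (2 * (k : ℕ) + 1))⁻¹ * (K : ℝ) ^ (4 * (k : ℕ) + 4) :=
                mul_le_mul_of_nonneg_left this (by positivity)
            _ = (K : ℝ) ^ (2 * (k : ℕ) + 3) := by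
                rw [inv_mul_eq_iff_eq_mul₀ (by positivity), ← pow_add]; congr 1; ring
        · have : ((AS k : Finset (Mach K t)).card : ℝ) ≤ (K : ℝ) ^ (4 * (k : ℕ) + 2) := by
            exact_mod_cast AS_card k
          calc _ ≤ ((K : ℝ) ^ (2 * (k : ℕ)))⁻¹ * (K : ℝ) ^ (4 * (k : ℕ) + 2) :=
                mul_le_mul_of_nonneg_left this (by positivity)
            _ = (K : ℝ) ^ (2 * (k : ℕ) + 2) := by
                rw [inv_mul_eq_iff_eq_mul₀ (by positivity), ← pow_add]; congr 1; ring
            _ ≤ (K : ℝ) ^ (2 * (k : ℕ) + 3) := pow_le_pow_right₀ hK1 (by omega)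
      have h3 : 0 ≤ vv K s k * ((if s k then BS k else AS k : Finset (Mach K t)).card : ℝ) :=
        mul_nonneg (vv_pos hK s k).le (Nat.cast_nonneg _)
      calc rr K s b * vv K s k * ((if s k then BS k else AS k : Finset (Mach K t)).card : ℝ)
          = rr K s b * (vv K s k *
              ((if s k then BS k else AS k : Finset (Mach K t)).card : ℝ)) := by ring
        _ ≤ ((K : ℝ) ^ (2 * (k : ℕ) + 3))⁻¹ * (K : ℝ) ^ (2 * (k : ℕ) + 3) :=
            mul_le_mul h1 h2 h3 (by positivity)
        _ = 1 := inv_mul_cancel₀ (by positivity)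
    · have hkb' : k = b := Fin.ext hkb
      subst hkb'
      cases hs : s k with
      | true =>
        left
        simp only [rr, vv, mm, hs, if_true]
        push_cast
        apply le_of_eq
        rw [← mul_inv, ← pow_add, inv_mul_eq_iff_eq_mul₀ (by positivity), mul_one]
        congr 1; ring
      | false =>
        right
        rw [hScard]
        simp only [rr, vv, hs, Bool.false_eq_true, if_false]
        have : ((AS k : Finset (Mach K t)).card : ℝ) ≤ (K : ℝ) ^ (4 * (k : ℕ) + 2) := by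
          exact_mod_cast AS_card k
        calc _ ≤ ((K : ℝ) ^ (2 * (k : ℕ) + 2))⁻¹ * ((K : ℝ) ^ (2 * (k : ℕ)))⁻¹ *
              (K : ℝ) ^ (4 * (k : ℕ) + 2) := mul_le_mul_of_nonneg_left this (by positivity)
          _ = 1 := by
              rw [← mul_inv, ← pow_add, inv_mul_eq_iff_eq_mul₀ (by positivity), mul_one]
              congr 1; ring
    · left
      have h1 : rr K s b * (mm K s b : ℝ) ≤ (K : ℝ) ^ (2 * (k : ℕ)) := by
        unfold rr mm
        split_ifs
        · push_cast
          calc ((K : ℝ) ^ (2 * (b : ℕ) + 1))⁻¹ * (K : ℝ) ^ (4 * (b : ℕ) + 2)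
              = (K : ℝ) ^ (2 * (b : ℕ) + 1) := by
                rw [inv_mul_eq_iff_eq_mul₀ (by positivity), ← pow_add]; congr 1; ring
            _ ≤ _ := pow_le_pow_right₀ hK1 (by omega)
        · push_cast
          calc ((K : ℝ) ^ (2 * (b : ℕ) + 2))⁻¹ * (K : ℝ) ^ (4 * (b : ℕ) + 4)
              = (K : ℝ) ^ (2 * (b : ℕ) + 2) := by
                rw [inv_mul_eq_iff_eq_mul₀ (by positivity), ← pow_add]; congr 1; ring
            _ ≤ _ := pow_le_pow_right₀ hK1 (by omega)
      have h2 : vv K s k ≤ ((K : ℝ) ^ (2 * (k : ℕ)))⁻¹ := by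
        unfold vv
        split_ifs
        · apply inv_anti₀ (by positivity)
          exact pow_le_pow_right₀ hK1 (by omega)
        · exact le_rfl
      have h3 : 0 ≤ rr K s b * (mm K s b : ℝ) := mul_nonneg (rr_pos hK s b).le (Nat.cast_nonneg _)
      calc rr K s b * vv K s k * (mm K s b : ℝ) = rr K s b * (mm K s b : ℝ) * vv K s k := by ring
        _ ≤ (K : ℝ) ^ (2 * (k : ℕ)) * ((K : ℝ) ^ (2 * (k : ℕ)))⁻¹ :=
            mul_le_mul h1 h2 (vv_pos hK s k).le (by positivity)
        _ = 1 := mul_inv_cancel₀ (by positivity)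

/-- total load of the machines of the first kind in unit `b`, relative to the full load -/
noncomputable def fA (K t : ℕ) (x : Fin (Fintype.card (Mach K t)) → ℝ) (b : Fin t) : ℝ :=
  (∑ m ∈ AS b, x (Fintype.equivFin (Mach K t) m)) / (K : ℝ) ^ (2 * (b : ℕ) + 2)

/-- total load of the machines of the second kind in unit `b`, relative to the full load -/
noncomputable def fB (K t : ℕ) (x : Fin (Fintype.card (Mach K t)) → ℝ) (b : Fin t) : ℝ :=
  (∑ m ∈ BS b, x (Fintype.equivFin (Mach K t) m)) / (K : ℝ) ^ (2 * (b : ℕ) + 3)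

lemma load_nonneg (φ : Fin (Fintype.card (Job K t)) → Fin (Fintype.card (Mach K t)))
    (i : Fin (Fintype.card (Mach K t))) : 0 ≤ load (P K t) φ i := by
  rw [load_eq]; exact ld_nonneg _ _

lemma costA (hK : 0 < K) (s : Fin t → Bool) (b : Fin t) (hs : s b = true)
    (φ : Fin (Fintype.card (Job K t)) → Fin (Fintype.card (Mach K t))) :
    K * fA K t (load (P K t) φ) b ≤ ordNorm (wt K s _) (load (P K t) φ) := by
  classical
  have hK' : (0 : ℝ) < K := by exact_mod_cast hK
  have ht : 0 < t := lt_of_le_of_lt (Nat.zero_le _) b.2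
  have hw : ∀ i, 0 ≤ wt K s (Fintype.card (Mach K t)) i := by
    intro i
    unfold wt
    apply Finset.sum_nonneg
    intro b _
    split_ifs
    · exact (rr_pos hK s b).le
    · exact le_rfl
  have h := ordNorm_ge hw (load_nonneg φ) ((AS b).map (Fintype.equivFin (Mach K t)).toEmbedding)
    (rr_pos hK s b).le (m := mm K s b) (by
      rw [Finset.card_map]; unfold mm; rw [hs]; simpa using AS_card b)
    (fun i hi => wt_ge hK s b i hi)
  refine le_trans (le_of_eq ?_) h
  rw [Finset.sum_map]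
  unfold fA rr
  rw [hs]
  simp only [if_true, Equiv.coe_toEmbedding]
  rw [pow_succ (K : ℝ) (2 * (b : ℕ) + 1)]
  field_simp

lemma costB (hK : 0 < K) (s : Fin t → Bool) (b : Fin t) (hs : s b = false)
    (φ : Fin (Fintype.card (Job K t)) → Fin (Fintype.card (Mach K t))) :
    K * fB K t (load (P K t) φ) b ≤ ordNorm (wt K s _) (load (P K t) φ) := by
  classical
  have hK' : (0 : ℝ) < K := by exact_mod_cast hK
  have ht : 0 < t := lt_of_le_of_lt (Nat.zero_le _) b.2
  have hw : ∀ i, 0 ≤ wt K s (Fintype.card (Mach K t)) i := by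
    intro i
    unfold wt
    apply Finset.sum_nonneg
    intro b _
    split_ifs
    · exact (rr_pos hK s b).le
    · exact le_rfl
  have h := ordNorm_ge hw (load_nonneg φ) ((BS b).map (Fintype.equivFin (Mach K t)).toEmbedding)
    (rr_pos hK s b).le (m := mm K s b) (by
      rw [Finset.card_map]; unfold mm; rw [hs]; simpa using BS_card b)
    (fun i hi => wt_ge hK s b i hi)
  refine le_trans (le_of_eq ?_) h
  rw [Finset.sum_map]
  unfold fB rr
  rw [hs]
  simp only [Bool.false_eq_true, if_false, Equiv.coe_toEmbedding]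
  rw [pow_succ (K : ℝ) (2 * (b : ℕ) + 2)]
  field_simp

/-- either all jobs are on allowed machines, so that the two fractions add up to at least one in
every unit, or the cost is at least `K` -/
lemma alt (hK : 0 < K) (ht : 0 < t) (s : Fin t → Bool)
    (φ : Fin (Fintype.card (Job K t)) → Fin (Fintype.card (Mach K t)))
    (hc : ordNorm (wt K s _) (load (P K t) φ) < K) (b : Fin t) :
    1 ≤ fA K t (load (P K t) φ) b + fB K t (load (P K t) φ) b := by
  classical
  have hK' : (0 : ℝ) < K := by exact_mod_cast hK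
  have hK1 : (1 : ℝ) ≤ K := by exact_mod_cast hK
  set ψ : Job K t → Mach K t := fun j => (Fintype.equivFin (Mach K t)).symm
      (φ (Fintype.equivFin (Job K t) j)) with hψ
  have hψ' : ∀ j, ψ j = aM j ∨ ψ j = bM j := by
    intro j
    by_contra hcon
    rw [not_or] at hcon
    have h1 : (K : ℝ) ^ 3 ≤ ld ψ (ψ j) := by
      unfold ld
      have h2 := Finset.single_le_sum (f := fun j' => if ψ j' = ψ j then p0 (ψ j) j' else 0)
        (s := Finset.univ) (fun j' _ => by
          split_ifs
          · exact p0_nonneg _ _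
          · exact le_rfl) (Finset.mem_univ j)
      simp only [if_true] at h2
      refine le_trans (le_of_eq ?_) h2
      unfold p0
      rw [if_neg hcon.1, if_neg hcon.2]
    have hw : ∀ i, 0 ≤ wt K s (Fintype.card (Mach K t)) i := by
      intro i
      unfold wt
      apply Finset.sum_nonneg
      intro b _
      split_ifs
      · exact (rr_pos hK s b).le
      · exact le_rfl
    have h := ordNorm_ge hw (load_nonneg φ) {Fintype.equivFin (Mach K t) (ψ j)}
      (rr_pos hK s ⟨0, ht⟩).le (m := mm K s ⟨0, ht⟩) (by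
        rw [Finset.card_singleton]; exact mm_pos hK s _)
      (fun i hi => wt_ge hK s _ i hi)
    rw [Finset.sum_singleton, load_eq, Equiv.symm_apply_apply] at h
    have h3 : ((K : ℝ) ^ 2)⁻¹ ≤ rr K s ⟨0, ht⟩ := by
      unfold rr
      split_ifs
      · apply inv_anti₀ (by positivity)
        exact pow_le_pow_right₀ hK1 (by simp)
      · apply inv_anti₀ (by positivity)
        exact pow_le_pow_right₀ hK1 (by simp)
    have h4 : ((K : ℝ) ^ 2)⁻¹ * (K : ℝ) ^ 3 ≤ rr K s ⟨0, ht⟩ * ld ψ (ψ j) :=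
      mul_le_mul h3 h1 (by positivity) (rr_pos hK s _).le
    have h5 : ((K : ℝ) ^ 2)⁻¹ * (K : ℝ) ^ 3 = K := by field_simp
    rw [h5] at h4
    linarith
  have := frac hK ψ hψ' b
  unfold fA fB
  simp only [load_eq, Equiv.symm_apply_apply]
  exact this

/-- **The lower bound for the instance.** -/
theorem many {α : ℝ} (hα : 0 ≤ α) (ht : 0 < t) (hK : 2 * α * t ^ 2 < K)
    (X : Finset (Fin (Fintype.card (Mach K t)) → ℝ)) (hX : IsPortfolio α (loads (P K t)) X) :
    2 ^ t ≤ X.card := by
  classical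
  have ht' : (0 : ℝ) < t := by exact_mod_cast ht
  have hK' : (0 : ℝ) < K := lt_of_le_of_lt (by positivity) hK
  have hK0 : 0 < K := by exact_mod_cast hK'
  have hd : 0 < Fintype.card (Mach K t) := by
    rw [Fintype.card_pos_iff]
    exact ⟨⟨⟨0, ht⟩, Sum.inl ⟨0, Nat.pow_pos hK0⟩⟩⟩
  have hex : ∀ s : Fin t → Bool, ∃ x ∈ X, ordNorm (wt K s _) x < K / 2 := by
    intro s
    obtain ⟨x, hx, hxy⟩ := hX.2 (wt K s _) (wt_weight hK0 ht s hd)
    obtain ⟨φ, hφ⟩ := good_cost hK0 s (t := t)
    have h1 := hxy _ ⟨φ, rfl⟩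
    refine ⟨x, hx, ?_⟩
    have h2 : α * ordNorm (wt K s _) (load (P K t) φ) ≤ α * (t * t) :=
      mul_le_mul_of_nonneg_left hφ hα
    nlinarith
  choose xs hxs hcost using hex
  let pat : (Fin (Fintype.card (Mach K t)) → ℝ) → (Fin t → Bool) :=
    fun x b => decide (fA K t x b < 1 / 2)
  have hpat : ∀ s, pat (xs s) = s := by
    intro s
    obtain ⟨φ, hφ⟩ := hX.1 _ (hxs s)
    have hc := hcost s
    rw [← hφ] at hc ⊢
    funext b
    have hsum := alt hK0 ht s φ (by linarith) b
    cases hs : s b with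
    | true =>
      have h1 := costA hK0 s b hs φ
      simp only [pat, decide_eq_true_eq]
      by_contra hcon
      rw [not_lt] at hcon
      nlinarith
    | false =>
      have h1 := costB hK0 s b hs φ
      simp only [pat, decide_eq_false_iff_not, not_lt]
      by_contra hcon
      rw [not_le] at hcon
      nlinarith
  have hinj : Function.Injective xs := by
    intro s s' h
    rw [← hpat s, ← hpat s', h]
  calc 2 ^ t = (Finset.univ : Finset (Fin t → Bool)).card := by simp
    _ ≤ X.card := Finset.card_le_card_of_injOn xs (fun s _ => hxs s) (hinj.injOn)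

lemma card_mach (hK : 2 * t ≤ K) (ht : 0 < t) : 2 ≤ Fintype.card (Mach K t) ∧
    Fintype.card (Mach K t) ≤ K ^ (5 * t) ∧ 1 ≤ Fintype.card (Job K t) := by
  have hK0 : 0 < K := by omega
  have e : Fintype.card (Mach K t) =
      ∑ k : Fin t, (K ^ (4 * (k : ℕ) + 2) + K ^ (4 * (k : ℕ) + 2) * K ^ 2) := by
    rw [Fintype.card_sigma]
    apply Finset.sum_congr rfl
    intro k _
    rw [Fintype.card_sum, Fintype.card_prod, Fintype.card_fin, Fintype.card_fin]
  refine ⟨?_, ?_, ?_⟩
  · rw [e]
    have h := Finset.single_le_sum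
      (f := fun k : Fin t => (K ^ (4 * (k : ℕ) + 2) + K ^ (4 * (k : ℕ) + 2) * K ^ 2))
      (s := Finset.univ) (fun _ _ => Nat.zero_le _) (Finset.mem_univ ⟨0, ht⟩)
    refine le_trans ?_ h
    have h1 : 0 < K ^ (4 * 0 + 2) := Nat.pow_pos hK0
    have h2 : 0 < K ^ (4 * 0 + 2) * K ^ 2 := Nat.mul_pos h1 (Nat.pow_pos hK0)
    dsimp only
    omega
  · rw [e]
    calc ∑ k : Fin t, (K ^ (4 * (k : ℕ) + 2) + K ^ (4 * (k : ℕ) + 2) * K ^ 2)
        ≤ ∑ _k : Fin t, 2 * K ^ (4 * t) := by
          apply Finset.sum_le_sum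
          intro k _
          have h1 : K ^ (4 * (k : ℕ) + 2) ≤ K ^ (4 * t) :=
            Nat.pow_le_pow_right hK0 (by have := k.2; omega)
          have h2 : K ^ (4 * (k : ℕ) + 2) * K ^ 2 ≤ K ^ (4 * t) := by
            rw [← pow_add]
            exact Nat.pow_le_pow_right hK0 (by have := k.2; omega)
          omega
      _ = 2 * t * K ^ (4 * t) := by
          rw [Finset.sum_const, Finset.card_univ, Fintype.card_fin, smul_eq_mul]; ring
      _ ≤ K * K ^ (4 * t) := Nat.mul_le_mul_right _ hK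
      _ = K ^ (4 * t + 1) := by rw [pow_succ]; ring
      _ ≤ K ^ (5 * t) := Nat.pow_le_pow_right hK0 (by omega)
  · rw [Nat.succ_le_iff, Fintype.card_pos_iff]
    exact ⟨⟨⟨0, ht⟩, ⟨⟨0, Nat.pow_pos hK0⟩, ⟨0, Nat.pow_pos hK0⟩⟩⟩⟩

lemma P_nonneg (i j) : 0 ≤ P K t i j := p0_nonneg _ _

end main

/-- **Q1 is disproved.**

(1) For every `α ≥ 1`, every integer `A ≥ α` and every `t ≥ 1` there is an instance with at most
`(2 A t ^ 2 + 1) ^ (5 t)` machines for which every `α`-approximate portfolio for the ordered norms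
has at least `2 ^ t` elements.

(2) For all `α ≥ 1` and `C > 0` there is an instance in which every `α`-approximate portfolio for the
ordered norms has more than `C log d` elements. -/
theorem result :
    (∀ (α : ℝ) (A t : ℕ), 1 ≤ α → α ≤ A → 1 ≤ t →
      ∃ (d n : ℕ) (p : Fin d → Fin n → ℝ), 2 ≤ d ∧ 1 ≤ n ∧ d ≤ (2 * A * t ^ 2 + 1) ^ (5 * t) ∧
        (∀ i j, 0 ≤ p i j) ∧ ∀ X : Finset (Fin d → ℝ), IsPortfolio α (loads p) X →
          2 ^ t ≤ X.card) ∧
    (∀ α C : ℝ, 1 ≤ α → 0 < C →
      ∃ (d n : ℕ) (p : Fin d → Fin n → ℝ), 2 ≤ d ∧ 1 ≤ n ∧ (∀ i j, 0 ≤ p i j) ∧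
        ∀ X : Finset (Fin d → ℝ), IsPortfolio α (loads p) X → C * Real.log d < X.card) := by
  have h1 : ∀ (α : ℝ) (A t : ℕ), 1 ≤ α → α ≤ A → 1 ≤ t →
      ∃ (d n : ℕ) (p : Fin d → Fin n → ℝ), 2 ≤ d ∧ 1 ≤ n ∧ d ≤ (2 * A * t ^ 2 + 1) ^ (5 * t) ∧
        (∀ i j, 0 ≤ p i j) ∧ ∀ X : Finset (Fin d → ℝ), IsPortfolio α (loads p) X →
          2 ^ t ≤ X.card := by
    intro α A t hα hA ht
    have hA1 : 1 ≤ A := by
      have : (1 : ℝ) ≤ A := hα.trans hA
      exact_mod_cast this
    have hKt : 2 * t ≤ 2 * A * t ^ 2 + 1 := by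
      have : t ≤ A * t ^ 2 := by
        calc t = 1 * (t * 1) := by ring
          _ ≤ A * (t * t) := Nat.mul_le_mul hA1 (Nat.mul_le_mul_left _ ht)
          _ = A * t ^ 2 := by ring
      nlinarith
    obtain ⟨g1, g2, g3⟩ := card_mach hKt ht
    refine ⟨_, _, P (2 * A * t ^ 2 + 1) t, g1, g3, g2, P_nonneg, fun X hX => ?_⟩
    apply many (by linarith) ht _ X hX
    push_cast
    have : α * (t : ℝ) ^ 2 ≤ A * (t : ℝ) ^ 2 := mul_le_mul_of_nonneg_right hA (by positivity)
    linarith
  refine ⟨h1, fun α C hα hC => ?_⟩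
  obtain ⟨A, hA⟩ := exists_nat_ge α
  -- `2 ^ t` beats `10 A C t ^ 3`
  have hlim : Filter.Tendsto (fun t : ℕ => (t : ℝ) ^ 3 / (2 : ℝ) ^ t) Filter.atTop (nhds 0) :=
    tendsto_pow_const_div_const_pow_of_one_lt 3 (by norm_num)
  have hev : ∀ᶠ t : ℕ in Filter.atTop, (t : ℝ) ^ 3 / (2 : ℝ) ^ t < 1 / (10 * A * C + 1) := by
    apply hlim.eventually_lt_const
    positivity
  obtain ⟨t, ht1, ht2⟩ := (hev.and (Filter.eventually_ge_atTop 1)).exists
  obtain ⟨d, n, p, hd, hn, hdle, hp, hX⟩ := h1 α A t hα hA ht2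
  refine ⟨d, n, p, hd, hn, hp, fun X hXP => ?_⟩
  have h2 : (2 : ℝ) ^ t ≤ X.card := by exact_mod_cast hX X hXP
  refine lt_of_lt_of_le ?_ h2
  have hd0 : (0 : ℝ) < d := by exact_mod_cast (by omega : 0 < d)
  have h3 : Real.log d ≤ 10 * A * (t : ℝ) ^ 3 := by
    have h4 : (d : ℝ) ≤ ((2 * A * t ^ 2 + 1 : ℕ) : ℝ) ^ (5 * t) := by exact_mod_cast hdle
    have h5 : Real.log d ≤ (5 * t : ℕ) * Real.log ((2 * A * t ^ 2 + 1 : ℕ) : ℝ) := by
      rw [← Real.log_pow]
      exact Real.log_le_log hd0 h4
    have h6 : Real.log ((2 * A * t ^ 2 + 1 : ℕ) : ℝ) ≤ 2 * A * (t : ℝ) ^ 2 := by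
      have := Real.log_le_sub_one_of_pos
        (show (0 : ℝ) < ((2 * A * t ^ 2 + 1 : ℕ) : ℝ) by positivity)
      push_cast at this ⊢
      linarith
    calc Real.log d ≤ (5 * t : ℕ) * Real.log ((2 * A * t ^ 2 + 1 : ℕ) : ℝ) := h5
      _ ≤ (5 * t : ℕ) * (2 * A * (t : ℝ) ^ 2) := mul_le_mul_of_nonneg_left h6 (by positivity)
      _ = 10 * A * (t : ℝ) ^ 3 := by push_cast; ring
  have h7 : (t : ℝ) ^ 3 * (10 * A * C + 1) < (2 : ℝ) ^ t := by
    rw [div_lt_div_iff₀ (by positivity) (by positivity)] at ht1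
    linarith
  have h8 : 0 ≤ (t : ℝ) ^ 3 := by positivity
  calc C * Real.log d ≤ C * (10 * A * (t : ℝ) ^ 3) := mul_le_mul_of_nonneg_left h3 hC.le
    _ ≤ (t : ℝ) ^ 3 * (10 * A * C + 1) := by nlinarith
    _ < (2 : ℝ) ^ t := h7

end Pool.Agent.Results.MP_61ce55_lc.LargePortfolios
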